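import Pool.Agent.W209.KT.Stm

set_option autoImplicit false

/-!
# KT-M: the curve is not of Khintchine type for convergence
-/

open Filter MeasureTheory

namespace Pool.Agent.W864.KT

open Pool.Agent.W209.KT

def Qn (k : ℕ) : ℕ := D k ^ 12 * 2 ^ (50 * lev k)

noncomputable def ps (k : ℕ) : ℝ := 50 / (D k * 2 ^ (5 * lev k))

theorem D_mono : StrictMono D := by
  apply strictMono_nat_of_lt_succ
  intro k
  unfold D
  apply Nat.pow_lt_pow_right (by norm_num)
  have : 36 ^ k < 36 ^ (k + 1) := Nat.pow_lt_pow_right (by norm_num) (Nat.lt_succ_self k)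
  omega

theorem lev_mono : Monotone lev := fun a b h => Nat.log_mono_right (by omega)

theorem D_pos (k : ℕ) : 0 < D k := by unfold D; positivity

theorem D_ge (k : ℕ) : k + 1 ≤ D k := by
  induction k with
  | zero => have := D_pos 0; omega
  | succ k ih =>
    have := D_mono (Nat.lt_add_one k)
    omega

theorem Qn_mono : StrictMono Qn := by
  intro a b h
  unfold Qn
  have h1 : D a ^ 12 < D b ^ 12 := Nat.pow_lt_pow_left (D_mono h) (by norm_num)
  have h2 : 2 ^ (50 * lev a) ≤ 2 ^ (50 * lev b) :=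
    Nat.pow_le_pow_right (by norm_num) (by have := lev_mono h.le; omega)
  exact Nat.mul_lt_mul_of_lt_of_le h1 h2 (by positivity)

theorem ps_pos (k : ℕ) : 0 < ps k := by
  unfold ps
  have : (0 : ℝ) < D k := by exact_mod_cast D_pos k
  positivity

theorem ps_anti : Antitone ps := by
  intro a b h
  unfold ps
  have h0 : (0 : ℝ) < D a := by exact_mod_cast D_pos a
  have h1 : (D a : ℝ) ≤ D b := by exact_mod_cast D_mono.monotone h
  have h2 : (2 : ℝ) ^ (5 * lev a) ≤ 2 ^ (5 * lev b) :=
    pow_le_pow_right₀ (by norm_num) (by have := lev_mono h; omega)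
  have h3 : (D a : ℝ) * 2 ^ (5 * lev a) ≤ D b * 2 ^ (5 * lev b) :=
    mul_le_mul h1 h2 (by positivity) (by positivity)
  exact div_le_div_of_nonneg_left (by norm_num) (by positivity) h3

theorem ps_tendsto : Tendsto ps atTop (nhds 0) := by
  have h1 : Tendsto (fun k : ℕ => (50 : ℝ) / k) atTop (nhds 0) :=
    tendsto_const_div_atTop_nhds_zero_nat 50
  refine tendsto_of_tendsto_of_tendsto_of_le_of_le' tendsto_const_nhds h1
    (Eventually.of_forall fun k => (ps_pos k).le) ?_
  filter_upwards [eventually_ge_atTop 1] with k hk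
  unfold ps
  have h0 : (0 : ℝ) < k := by exact_mod_cast hk
  have h2 : (k : ℝ) ≤ D k := by exact_mod_cast (by have := D_ge k; omega : k ≤ D k)
  have h3 : (1 : ℝ) ≤ 2 ^ (5 * lev k) := one_le_pow₀ (by norm_num)
  have h4 : (k : ℝ) ≤ D k * 2 ^ (5 * lev k) := by nlinarith
  exact div_le_div_of_nonneg_left (by norm_num) h0 h4

theorem exQ (q : ℕ) : ∃ k, q ≤ Qn k := ⟨q, Qn_mono.id_le q⟩

open Classical in
noncomputable def Kq (q : ℕ) : ℕ := Nat.find (exQ q)

theorem Kq_spec (q : ℕ) : q ≤ Qn (Kq q) := by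
  classical
  exact Nat.find_spec (exQ q)

theorem Kq_le {q k : ℕ} (h : q ≤ Qn k) : Kq q ≤ k := by
  classical
  exact Nat.find_min' (exQ q) h

theorem Kq_mono : Monotone Kq := fun a b h => Kq_le (h.trans (Kq_spec b))

theorem term_le (k : ℕ) : ((Qn k : ℝ) + 1) * ps k ^ 12 ≤ 2 * 50 ^ 12 * (2 ^ (10 * lev k))⁻¹ := by
  have hD : (0 : ℝ) < D k := by exact_mod_cast D_pos k
  have hQ1 : (1 : ℝ) ≤ Qn k := by
    have : 0 < Qn k := by
      unfold Qn
      have := D_pos k
      positivity
    exact_mod_cast this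
  have h1 : ((Qn k : ℝ) + 1) * ps k ^ 12 ≤ (2 * Qn k) * ps k ^ 12 :=
    mul_le_mul_of_nonneg_right (by linarith) (by have := ps_pos k; positivity)
  refine h1.trans (le_of_eq ?_)
  unfold Qn ps
  push_cast
  rw [div_pow, mul_pow, ← pow_mul, show 5 * lev k * 12 = 50 * lev k + 10 * lev k by ring, pow_add]
  have h2 : (2 : ℝ) ^ (50 * lev k) ≠ 0 := by positivity
  have h3 : (2 : ℝ) ^ (10 * lev k) ≠ 0 := by positivity
  field_simp

theorem summ (h1 : S_cov) : Summable fun k : ℕ => 2 * (50 : ℝ) ^ 12 * (2 ^ (10 * lev k))⁻¹ := by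
  apply Summable.mul_left
  have hs : Summable fun k : ℕ => (256 : ℝ) ^ (5 / 4 : ℝ) * (((k : ℝ) + 1) ^ (5 / 4 : ℝ))⁻¹ := by
    apply Summable.mul_left
    have h2 : Summable fun k : ℕ => (((k : ℕ) : ℝ) ^ (5 / 4 : ℝ))⁻¹ :=
      Real.summable_nat_rpow_inv.mpr (by norm_num)
    have h3 := (summable_nat_add_iff 1).mpr h2
    refine h3.congr fun k => ?_
    push_cast
    rfl
  refine Summable.of_nonneg_of_le (fun k => by positivity) (fun k => ?_) hs
  have h2 := (h1.1 k).2
  have h3 : ((k : ℝ) + 1) / 256 ≤ 256 ^ lev k := by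
    rw [pow_succ] at h2
    linarith
  have h4 : (2 : ℝ) ^ (10 * lev k) = ((256 : ℝ) ^ lev k) ^ (5 / 4 : ℝ) := by
    have e1 : (256 : ℝ) ^ lev k = (2 : ℝ) ^ ((8 * lev k : ℕ) : ℝ) := by
      rw [Real.rpow_natCast, pow_mul]
      norm_num
    rw [e1, ← Real.rpow_mul (by norm_num), ← Real.rpow_natCast]
    congr 1
    push_cast
    ring
  have h5 : (((k : ℝ) + 1) / 256) ^ (5 / 4 : ℝ) ≤ (2 : ℝ) ^ (10 * lev k) := by
    rw [h4]
    exact Real.rpow_le_rpow (by positivity) h3 (by norm_num)
  have h6 : (0 : ℝ) < (((k : ℝ) + 1) / 256) ^ (5 / 4 : ℝ) := by positivity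
  calc ((2 : ℝ) ^ (10 * lev k))⁻¹ ≤ ((((k : ℝ) + 1) / 256) ^ (5 / 4 : ℝ))⁻¹ :=
        inv_anti₀ h6 h5
    _ = (256 : ℝ) ^ (5 / 4 : ℝ) * (((k : ℝ) + 1) ^ (5 / 4 : ℝ))⁻¹ := by
        rw [Real.div_rpow (by positivity) (by norm_num), inv_div, div_eq_mul_inv]

theorem M (h1 : S_cov) (h2 : S_curve) : S_M := by
  intro A s hG
  refine ⟨fun q => ps (Kq q), fun q => (ps_pos _).le, fun a b h => ps_anti (Kq_mono h), ?_, ?_⟩
  · have hS := summ h1
    refine summable_of_sum_range_le (c := ∑' k : ℕ, 2 * (50 : ℝ) ^ 12 * (2 ^ (10 * lev k))⁻¹)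
      (fun q => by have := ps_pos (Kq q); positivity) fun n => ?_
    have hmaps : ∀ q ∈ Finset.range n, Kq q ∈ Finset.range (n + 1) := by
      intro q hq
      rw [Finset.mem_range] at hq ⊢
      have := Kq_le (Qn_mono.id_le q)
      simp only [id] at this
      omega
    rw [← Finset.sum_fiberwise_of_maps_to hmaps]
    have h3 : ∀ k ∈ Finset.range (n + 1),
        ∑ q ∈ (Finset.range n).filter (fun q => Kq q = k), ps (Kq q) ^ 12 ≤
        2 * (50 : ℝ) ^ 12 * (2 ^ (10 * lev k))⁻¹ := by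
      intro k _
      have h4 : ∑ q ∈ (Finset.range n).filter (fun q => Kq q = k), ps (Kq q) ^ 12 =
          ∑ q ∈ (Finset.range n).filter (fun q => Kq q = k), ps k ^ 12 := by
        refine Finset.sum_congr rfl fun q hq => ?_
        rw [(Finset.mem_filter.mp hq).2]
      rw [h4, Finset.sum_const, nsmul_eq_mul]
      have h5 : ((Finset.range n).filter (fun q => Kq q = k)).card ≤ Qn k + 1 := by
        have h6 : (Finset.range n).filter (fun q => Kq q = k) ⊆ Finset.range (Qn k + 1) := by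
          intro q hq
          have h7 := (Finset.mem_filter.mp hq).2
          have h8 := Kq_spec q
          rw [h7] at h8
          rw [Finset.mem_range]
          omega
        simpa using Finset.card_le_card h6
      have h6 : (((Finset.range n).filter (fun q => Kq q = k)).card : ℝ) ≤ (Qn k : ℝ) + 1 := by
        exact_mod_cast h5
      exact (mul_le_mul_of_nonneg_right h6 (by have := ps_pos k; positivity)).trans (term_le k)
    refine (Finset.sum_le_sum h3).trans ?_
    exact hS.sum_le_tsum _ fun k _ => by positivity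
  · intro t ht1 ht2 hirr
    unfold Appr
    by_contra hcon
    rw [not_frequently, eventually_atTop] at hcon
    obtain ⟨N0, hN0⟩ := hcon
    have hpos : ∀ q : ℕ, 0 < q → 0 < nrm (q * t) := by
      intro q hq
      unfold nrm
      rw [abs_pos, sub_ne_zero]
      have h3 : Irrational ((q : ℝ) * t) := by
        have := hirr.natCast_mul (m := q) (by omega)
        exact this
      exact h3.ne_int _
    have hev : ∀ᶠ k in atTop, ∀ q ∈ Finset.range N0, 0 < q → ps k < nrm (q * t) := by
      rw [Filter.eventually_all_finset]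
      intro q _
      by_cases hq : 0 < q
      · filter_upwards [ps_tendsto.eventually (gt_mem_nhds (hpos q hq))] with k hk _
        exact hk
      · exact Eventually.of_forall fun k h => absurd h hq
    obtain ⟨K0, hK0⟩ := eventually_atTop.mp hev
    obtain ⟨k, hk, hkt⟩ := h1.2.2 t ht1 ht2 K0
    obtain ⟨q, hq0, hqQ, hq⟩ := h2 A s hG k t ht1 ht2 hkt
    have hle : ps k ≤ ps (Kq q) := ps_anti (Kq_le hqQ)
    have hlt : q < N0 := by
      by_contra hge
      apply hN0 q (by omega)
      intro i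
      have h3 := hq i
      have h4 : (50 : ℝ) / (D k * 2 ^ (5 * lev k)) = ps k := rfl
      rw [h4] at h3
      exact h3.trans_le hle
    have h5 := hK0 k hk q (Finset.mem_range.mpr hlt) hq0
    have h6 := hq 0
    have h7 : pt A (gam t) 0 = t := by
      have : (0 : Fin 12) = Fin.castAdd 2 (0 : Fin 10) := rfl
      rw [pt, this, Fin.append_left]
      simp [gam]
    rw [h7] at h6
    have h4 : (50 : ℝ) / (D k * 2 ^ (5 * lev k)) = ps k := rfl
    rw [h4] at h6
    exact absurd h6 (not_lt.mpr h5.le)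

end Pool.Agent.W864.KT
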